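import Pool.Agent.GEN.StmtsZ
import Pool.Agent.Helper28_Simp2.Zsc
import Pool.Agent.Helper73_Simp2.Zalg
import Pool.Agent.Helper7_Simp2.Ext2

/-!
# Row ZSK: the scalar version (after Helper28_Simp2/Zsc.lean)
-/

set_option autoImplicit false

namespace Pool.Agent.GEN.H71

open PowerSeries Finset Pool.Agent.Helper6_Mono Pool.Agent.Helper30_Simp
  Pool.Agent.Helper30_Simp2 Pool.Agent.GEN

theorem zsk (hA : ZakStmt) : ZskStmt := by
  classical
  intro σ _ M hM x hx hK c y1 y0 h1 h0 hy1 hy0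
  obtain ⟨hid, hadd, hC, hET, hcell⟩ := H40.zg σ M hM
  clear hid
  set P : Set (ℕ × ℕ) := steps ((slopes M ∪ {1}) \ {x}) with hPdef
  set a : Ideal (MvPolynomial (Wa M) ℤ⟦X⟧) := H40.RI M P with hadef
  have ha1 : ∀ u : σ → ℕ, Ev M ℤ⟦X⟧ u - MvPolynomial.C ((X : ℤ⟦X⟧) ^ (∑ i, u i)) ∈ a :=
    H40.Ev_mem M P
  have ha3 : ∀ r N : ℕ, (r, N) ∈ P → ∀ p,
      (ET M ℤ⟦X⟧ ^ N - MvPolynomial.C ((X : ℤ⟦X⟧) ^ r)) * p ∈ a → p ∈ a := by
    intro r N hP p hp h
    refine RQ.step _ r N hP ((hp h).congr fun m => ?_)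
    rw [sub_mul, H40.val_sub, H40.val_ET_pow_mul, H40.val_C_mul]
  have ha4 : ∀ p ∈ a, RQ (X : ℤ⟦X⟧) P (val M p 0) := fun p hp => hp 0
  have hunit : ∀ n : ℕ, n ≠ 0 → IsUnit (1 - (X : ℤ⟦X⟧) ^ n) := by
    intro n hn
    rw [PowerSeries.isUnit_iff_constantCoeff]
    simp [hn]
  have hfac : ∀ (κ : σ → ℕ) (N : ℕ), IsFacet M κ → (∃ α ∈ face M κ, dot κ α = N) →
      ((∑ i, κ i : ℕ) : ℚ) ≠ x * N →
      ∀ p, (ET M ℤ⟦X⟧ ^ N - MvPolynomial.C ((X : ℤ⟦X⟧) ^ (∑ i, κ i))) * p ∈ a → p ∈ a := by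
    rintro κ N hκ ⟨α, hα, hN⟩ hne p hp
    have hN0 : 0 < N := by
      rw [← hN]
      exact hκ.1 α hα.1
    refine ha3 _ N ?_ p hp
    refine ⟨hN0, ?_, ?_⟩
    · left
      refine ⟨κ, hκ, α, hα, ?_⟩
      rw [hN]
    · intro h
      rw [Set.mem_singleton_iff] at h
      apply hne
      have : (N : ℚ) ≠ 0 := by exact_mod_cast hN0.ne'
      rw [← h]
      field_simp
  -- the relations
  have hrelz : ∀ y : Finset (σ →₀ ℕ) → Finset σ → ℤ⟦X⟧, KRel M X y (fun J => X * c J) →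
      KRel M X (fun I J => y I J - X * c J) (fun _ => 0) := by
    intro y hy I J K hI hd hK'
    have e1 := hy I J K hI hd hK'
    have e2 : ∑ K' ∈ K.powerset, (1 - (X : ℤ⟦X⟧)) ^ K'.card * X ^ (K.card - K'.card) = 1 := by
      rw [Finset.sum_pow_mul_eq_add_pow]
      simp
    show ∑ K' ∈ K.powerset, (1 - (X : ℤ⟦X⟧)) ^ K'.card * X ^ (K.card - K'.card) *
      (y (keep I K K') J - X * c J) = 0
    have e3 : ∀ K' ∈ K.powerset, (1 - (X : ℤ⟦X⟧)) ^ K'.card * X ^ (K.card - K'.card) *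
        (y (keep I K K') J - X * c J) = (1 - (X : ℤ⟦X⟧)) ^ K'.card * X ^ (K.card - K'.card) *
          y (keep I K K') J - (1 - (X : ℤ⟦X⟧)) ^ K'.card * X ^ (K.card - K'.card) *
            (X * c J) := fun K' _ => by rw [mul_sub]
    rw [Finset.sum_congr rfl e3, Finset.sum_sub_distrib, ← Finset.sum_mul, e2, e1]
    ring
  have hPZ : ∀ z : Finset (σ →₀ ℕ) → Finset σ → ℤ⟦X⟧, KRel M X z (fun _ => 0) → PZ M z ∈ a := by
    intro z hz
    have e := H73.red H7.ext2 hM x (X : ℤ⟦X⟧) a hunit ha1 hfac (PZ M z) _ ∅ rfl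
      (fun S' _ hf => hA σ M hM x hK P z hz S' hf)
    have e0 : Xs M ℤ⟦X⟧ (∅ : Finset (Wa M)) = 1 := by
      simp [Xs]
    rw [e0, mul_one] at e
    exact e
  -- the two elements of the ideal
  have hT1 := hPZ _ (hrelz y1 hy1)
  have hT0 := hPZ _ (hrelz y0 hy0)
  unfold PZ at hT1 hT0
  set T1 := ∑ I ∈ M.powerset, ∑ J ∈ (univ : Finset σ).powerset,
        MvPolynomial.C (y1 I J - X * c J) * cellP M ℤ⟦X⟧ I J with hT1def
  set T0 := ∑ I ∈ M.powerset, ∑ J ∈ (univ : Finset σ).powerset,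
        MvPolynomial.C (y0 I J - X * c J) * cellP M ℤ⟦X⟧ I J with hT0def
  have hp : (ET M ℤ⟦X⟧ * T1 + (MvPolynomial.C (-X) * T1 + MvPolynomial.C X * T0)) ∈ a :=
    a.add_mem (a.mul_mem_left _ hT1) (a.add_mem (a.mul_mem_left _ hT1) (a.mul_mem_left _ hT0))
  have hRQ := ha4 _ hp
  -- linearity
  have hval0 : ∀ N, val M (0 : MvPolynomial (Wa M) ℤ⟦X⟧) 0 N = 0 := by
    intro N
    have := hadd 0 0 0 N
    rw [add_zero] at this
    exact left_eq_add.1 this
  have hsum : ∀ {ι : Type} (s : Finset ι) (F : ι → MvPolynomial (Wa M) ℤ⟦X⟧) (N : ℕ),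
      val M (∑ i ∈ s, F i) 0 N = ∑ i ∈ s, val M (F i) 0 N := by
    intro ι s F N
    induction s using Finset.induction_on with
    | empty => simp [hval0]
    | insert i s hi ih => rw [Finset.sum_insert hi, Finset.sum_insert hi, hadd, ih]
  set g : Finset (σ →₀ ℕ) → Finset σ → ℕ → ℤ⟦X⟧ :=
    fun I J N => val M (cellP M ℤ⟦X⟧ I J) 0 N with hg
  have hV : ∀ (z : Finset (σ →₀ ℕ) → Finset σ → ℤ⟦X⟧) (N : ℕ),
      val M (∑ I ∈ M.powerset, ∑ J ∈ (univ : Finset σ).powerset,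
        MvPolynomial.C (z I J) * cellP M ℤ⟦X⟧ I J) 0 N =
      ∑ I ∈ M.powerset, ∑ J ∈ (univ : Finset σ).powerset, z I J * g I J N := by
    intro z N
    rw [hsum]
    refine Finset.sum_congr rfl fun I _ => ?_
    rw [hsum]
    refine Finset.sum_congr rfl fun J _ => ?_
    rw [hC]
  -- the relation between the cells with `I = ∅` and the others
  have hrel : ∀ J N, g ∅ J N = ∑ I ∈ M.powerset, g I J (N + 1) := by
    intro J N
    simp only [hg]
    rw [← hsum, H28.sum_cellP, H28.cellP_empty, hET]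
  have hgf : ∀ I ∈ M.powerset, I ≠ ∅ → ∀ J N, gfc M I J N = g I J N := by
    intro I hI hI0 J N
    rw [hg]
    exact (hcell I J (Finset.mem_powerset.1 hI) (Finset.nonempty_iff_ne_empty.2 hI0) N).symm
  -- the step with slope one
  refine RQ.step _ 1 1 ?_ ?_
  · refine ⟨one_pos, ?_, ?_⟩
    · right
      simp
    · intro h
      rw [Set.mem_singleton_iff] at h
      apply hx
      rw [← h]
      norm_num
  refine H32.RQ_congr hRQ fun m => ?_
  rw [hadd, hadd, hET, hC, hC, hT1def, hT0def, hV, hV, hV]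
  have key : ∀ I ∈ M.powerset, ∀ J ∈ (univ : Finset σ).powerset,
      (y1 I J - X * c J) * g I J (m + 1) + (-X * ((y1 I J - X * c J) * g I J m) +
        X * ((y0 I J - X * c J) * g I J m)) =
      ((if I = ∅ then 0 else y1 I J * gfc M I J (m + 1) +
          y0 I J * ∑ l ∈ range (m + 1), X ^ (m + 1 - l) * gfc M I J l) -
        X ^ 1 * (if I = ∅ then 0 else y1 I J * gfc M I J m +
          y0 I J * ∑ l ∈ range m, X ^ (m - l) * gfc M I J l)) +
      (-(X * c J * g I J (m + 1)) + if I = ∅ then X * c J * g ∅ J m else 0) := by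
    intro I hI J _
    by_cases h : I = ∅
    · subst h
      simp only [if_true, h1, h0]
      ring
    · simp only [if_neg h, hgf I hI h]
      have h2 : ∑ l ∈ range (m + 1), (X : ℤ⟦X⟧) ^ (m + 1 - l) * g I J l =
          X * (∑ l ∈ range m, X ^ (m - l) * g I J l) + X * g I J m := by
        rw [Finset.sum_range_succ, Finset.mul_sum]
        congr 1
        · refine Finset.sum_congr rfl fun l hl => ?_
          rw [Finset.mem_range] at hl
          rw [← mul_assoc, ← pow_succ']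
          congr 2
          omega
        · rw [Nat.add_sub_cancel_left, pow_one]
      rw [h2]
      ring
  have hsplit : ∀ F : Finset (σ →₀ ℕ) → Finset σ → ℤ⟦X⟧,
      ∀ G : Finset (σ →₀ ℕ) → Finset σ → ℤ⟦X⟧, ∀ H : Finset (σ →₀ ℕ) → Finset σ → ℤ⟦X⟧,
      (∑ I ∈ M.powerset, ∑ J ∈ (univ : Finset σ).powerset, F I J) +
        (-X * (∑ I ∈ M.powerset, ∑ J ∈ (univ : Finset σ).powerset, G I J) +
        X * ∑ I ∈ M.powerset, ∑ J ∈ (univ : Finset σ).powerset, H I J) =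
      ∑ I ∈ M.powerset, ∑ J ∈ (univ : Finset σ).powerset,
        (F I J + (-X * G I J + X * H I J)) := by
    intro F G H
    simp_rw [Finset.sum_add_distrib, Finset.mul_sum]
  rw [hsplit, Finset.sum_congr rfl fun I hI => Finset.sum_congr rfl fun J hJ => key I hI J hJ]
  simp_rw [Finset.sum_add_distrib, Finset.sum_sub_distrib]
  have hzero : ∑ I ∈ M.powerset, ∑ J ∈ (univ : Finset σ).powerset, -(X * c J * g I J (m + 1)) +
      ∑ I ∈ M.powerset, ∑ J ∈ (univ : Finset σ).powerset,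
        (if I = ∅ then X * c J * g ∅ J m else 0) = 0 := by
    rw [Finset.sum_comm]
    have e1 : ∑ I ∈ M.powerset, ∑ J ∈ (univ : Finset σ).powerset,
        (if I = ∅ then X * c J * g ∅ J m else 0) =
        ∑ J ∈ (univ : Finset σ).powerset, X * c J * g ∅ J m := by
      rw [Finset.sum_comm]
      refine Finset.sum_congr rfl fun J _ => ?_
      rw [Finset.sum_ite_eq' M.powerset ∅ (fun _ => X * c J * g ∅ J m), if_pos]
      exact Finset.empty_mem_powerset M
    rw [e1, ← Finset.sum_add_distrib]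
    refine Finset.sum_eq_zero fun J _ => ?_
    rw [hrel J m, Finset.sum_neg_distrib, ← Finset.mul_sum]
    ring
  rw [hzero, add_zero]
  simp_rw [Finset.mul_sum]

end Pool.Agent.GEN.H71
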