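import Pool.Agent.GEN.StmtsZC
import Pool.Agent.Helper30_Simp2.Assembly

/-!
# Squad GEN, row ZFK: the end of the zeta side
-/

set_option autoImplicit false
set_option linter.unusedVariables false
set_option linter.unusedSectionVars false

namespace Pool.Agent.GEN.H71

open PowerSeries Finset Pool.Agent.Helper6_Mono Pool.Agent.Helper30_Simp
  Pool.Agent.Helper30_Simp.H32 Pool.Agent.Helper30_Simp2 Pool.Agent.Helper30_Simp2.H63

section main

variable {k : Type} [Field k] [CharZero k] {σ : Type} [Fintype σ] {R : Type 1} [CommRing R]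
  {L : Rˣ} (χ : SInv k (fun _ : σ => (0 : QZ)) L) (f : MvPolynomial σ k)

/-- the class of a stratum of the jet space, when all initial forms are smooth in the torus -/
theorem keyK (h1 : P1Stmt) (h2 : P2Stmt) (h3 : P3Stmt) (hY : YttStmt)
    (hf : f ≠ 0) (hsm : ∀ I : Finset (σ →₀ ℕ), I ⊆ f.support → I.Nonempty →
      TorusSmooth (part f I)) (m : ℕ) (hm : m ≠ 0)
    (hω : m • ((((1 : ℚ) / m : ℚ)) : QZ) = 0) (u : σ → Fin (m + 2)) :
    Li L ^ (m * Fintype.card σ) * χ.χ (FS f (fun i => (u i : ℕ)) m ((((1 : ℚ) / m : ℚ)) : QZ) hω)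
      = ∑ t ∈ f.support.powerset ×ˢ (univ : Finset σ).powerset,
        Pool.Agent.Helper30_Simp.H15.gt χ f m t u := by
  classical
  obtain ⟨I, J, N, hc⟩ := Pool.Agent.Helper30_Simp.H15.cell_exists
    (MvPolynomial.support_nonempty.2 hf) (fun i => (u i : ℕ))
  have hmem : (I, J) ∈ f.support.powerset ×ˢ (univ : Finset σ).powerset :=
    Finset.mem_product.2 ⟨Finset.mem_powerset.2 hc.sub, Finset.mem_powerset.2 (subset_univ _)⟩
  rw [Finset.sum_eq_single_of_mem (I, J) hmem
    (fun t _ ht => Pool.Agent.Helper30_Simp.H15.gt_zero χ f hc (Or.inl ht))]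
  rcases lt_trichotomy m N with hlt | heq | hgt
  · rw [Pool.Agent.Helper30_Simp.H15.gt_zero χ f hc (Or.inr hlt),
      h1 k σ R L χ f (fun i => (u i : ℕ)) m _ hω, mul_zero]
    intro α hα
    by_cases hI : α ∈ I
    · rw [hc.eq α hI]
      exact hlt
    · exact hlt.trans (hc.lt α hα hI)
  · subst heq
    have e0 : Pool.Agent.Helper30_Simp.H15.gt χ f m (I, J) u
        = Pool.Agent.Helper30_Simp.H15.Y1 χ f (I, J) * ∏ i, cw L I J m i (u i) := by
      unfold Pool.Agent.Helper30_Simp.H15.gt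
      rw [if_pos hc, Finset.sum_eq_zero, add_zero]
      intro l hl
      rw [if_neg]
      intro hc'
      have := (Pool.Agent.Helper30_Simp.H15.cell_unique hc hc').2.2
      have := Finset.mem_range.1 hl
      omega
    rw [e0, h2 k σ R L χ f I J (fun i => (u i : ℕ)) m hc _ hω,
      ← Pool.Agent.Helper30_Simp.H15.prod_cw L hc le_rfl (fun i => inferInstance)]
    have hex : ∃ (u₀ : σ → ℕ) (N₀ : ℕ), CellS f.support (I, J).1 (I, J).2 u₀ N₀ ∧ N₀ ≠ 0 :=
      ⟨_, m, hc, hm⟩
    have e1 : Pool.Agent.Helper30_Simp.H15.Y1 χ f (I, J)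
        = χ.χ (TT1 (V1 hex.choose_spec.choose_spec.1
        hex.choose_spec.choose_spec.2) rfl) := by
      unfold Pool.Agent.Helper30_Simp.H15.Y1
      rw [dif_pos hex]
    have e2 := (hY k σ R L χ f I J (fun i => (u i : ℕ)) m m hc le_rfl).2 rfl hm
      ((((1 : ℚ) / m : ℚ)) : QZ) rfl hω _ _ hex.choose_spec.choose_spec.1
        hex.choose_spec.choose_spec.2
    rw [e1, e2]
    ring
  · have e0 : Pool.Agent.Helper30_Simp.H15.gt χ f m (I, J) u
        = Pool.Agent.Helper30_Simp.H15.Y0 χ f (I, J) * Li L ^ (m - N)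
          * ∏ i, cw L I J m i (u i) := by
      unfold Pool.Agent.Helper30_Simp.H15.gt
      have hno : ¬ CellS f.support (I, J).1 (I, J).2 (fun i => (u i : ℕ)) m := by
        intro hc'
        have := (Pool.Agent.Helper30_Simp.H15.cell_unique hc hc').2.2
        omega
      rw [if_neg hno, zero_add, Finset.sum_eq_single_of_mem N (Finset.mem_range.2 hgt), if_pos hc]
      intro l hl hne
      rw [if_neg]
      intro hc'
      exact hne (Pool.Agent.Helper30_Simp.H15.cell_unique hc hc').2.2.symm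
    have hT := hsm I hc.sub hc.ne
    rw [e0, h3 k σ R L χ f I J (fun i => (u i : ℕ)) N m hc hgt hT _ hω,
      ← Pool.Agent.Helper30_Simp.H15.prod_cw L hc hgt.le (fun i => inferInstance),
      (hY k σ R L χ f I J (fun i => (u i : ℕ)) N m hc hgt.le).1]
    unfold Pool.Agent.Helper30_Simp.H15.Y0
    rw [pow_add]
    ring

end main

/-- the case without removed slopes -/
theorem zfin0 (hS : StrataStmt) (h1 : P1Stmt) (h2 : P2Stmt) (h3 : P3Stmt)
    (hY : YttStmt) (hT : TruncStmt) (hC : ConeStmt)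
    (k : Type) [Field k] [CharZero k] (σ : Type) [Fintype σ] (R : Type 1) [CommRing R] (L : Rˣ)
    (χ : SInv k (fun _ : σ => (0 : QZ)) L) (f : MvPolynomial σ k) (hf : f ≠ 0)
    (hsm : ∀ I : Finset (σ →₀ ℕ), I ⊆ f.support → I.Nonempty → TorusSmooth (part f I)) :
    ∃ a : ℕ → R, a 0 = 0 ∧ RP L (steps (slopes f.support ∪ {1})) a ∧
      ∀ (m : ℕ) (hm : m ≠ 0) (hω : m • ((((1 : ℚ) / m : ℚ)) : QZ) = 0),
        a m = Li L ^ (m * Fintype.card σ) *
          χ.χ ((FibK k σ ((((1 : ℚ) / m : ℚ)) : QZ) m hω).app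
            (Jet f Set.univ m ((((1 : ℚ) / m : ℚ)) : QZ))) := by
  classical
  have hRP : RP L (steps (slopes f.support ∪ {1})) (fun m =>
      ∑ t ∈ f.support.powerset ×ˢ (univ : Finset σ).powerset,
        (Pool.Agent.Helper30_Simp.H15.Y1 χ f t * coneSum L f.support t.1 t.2 m m
        + Pool.Agent.Helper30_Simp.H15.Y0 χ f t
          * ∑ p ∈ Finset.HasAntidiagonal.antidiagonal m,
          coneSum L f.support t.1 t.2 p.1 p.1
            * (if p.2 = 0 then (0 : R) else ((L⁻¹ ^ p.2 : Rˣ) : R)))) := by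
    refine RP.sum _ fun t _ => ?_
    have hc : RP L (steps (slopes f.support)) (fun l => coneSum L f.support t.1 t.2 l l) :=
      hC σ R L f.support t.1 t.2
    refine RP.add (RP.smul _ (hc.mono ?_)) (RP.smul _ (RP.cauchy hc RP.tail))
    intro p hp
    exact ⟨hp.1, Or.inl hp.2⟩
  refine ⟨fun m => if m = 0 then 0 else
      ∑ t ∈ f.support.powerset ×ˢ (univ : Finset σ).powerset,
        (Pool.Agent.Helper30_Simp.H15.Y1 χ f t * coneSum L f.support t.1 t.2 m m
        + Pool.Agent.Helper30_Simp.H15.Y0 χ f t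
          * ∑ p ∈ Finset.HasAntidiagonal.antidiagonal m,
          coneSum L f.support t.1 t.2 p.1 p.1
            * (if p.2 = 0 then (0 : R) else ((L⁻¹ ^ p.2 : Rˣ) : R))), ?_, ?_, ?_⟩
  · simp
  · refine RP.of_shift 1 ((hRP.shift 1).congr fun m => ?_)
    rw [if_neg (Nat.succ_ne_zero m)]
  · intro m hm hω
    simp only [if_neg hm]
    rw [hS k σ R L χ f m hm _ hω, Finset.mul_sum]
    simp only [keyK χ f h1 h2 h3 hY hf hsm m hm hω]
    rw [Finset.sum_comm]
    refine Finset.sum_congr rfl fun t _ => ?_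
    exact (Pool.Agent.Helper30_Simp.H15.sum_gt χ f hT m t).symm

/-- the end of the zeta side from its modules -/
theorem zfk_aux (hcls : ClsStmt) (hS : StrataStmt) (h1 : P1Stmt)
    (h2 : P2Stmt) (h3 : P3Stmt) (hY : YttStmt) (hT : TruncStmt) (hC : ConeStmt)
    (hsmo : SmoStmt) (hclk : ClkStmt) (hrec : RecStmt) (huso : UsoStmt) (hgda : GdaStmt) :
    ZfinKStmt := by
  classical
  intro k _ _ σ _ R _ L χ f hf hai hconf B hB1 hB
  have hsm : ∀ I : Finset (σ →₀ ℕ), I ⊆ f.support → I.Nonempty → TorusSmooth (part f I) :=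
    fun I hI hne => hsmo k σ f hai I hI hne
  by_cases hB0 : B.Nonempty
  swap
  · obtain rfl : B = ∅ := Set.not_nonempty_iff_eq_empty.1 hB0
    have h4 := zfin0 hS h1 h2 h3 hY hT hC k σ R L χ f hf hsm
    rw [Set.sdiff_empty]
    exact h4
  have hM : f.support.Nonempty := MvPolynomial.support_nonempty.2 hf
  choose P hP using fun J : Finset σ => (hrec σ f.support J).1
  have hL : ((L : R) - 1) + 1 = L := sub_add_cancel _ _
  have form0 : ∀ (J : Finset σ) (I : Finset (σ →₀ ℕ)), I ⊆ f.support →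
      χ.χ (TT0 (V0 f I J)) = evI ((L : R) - 1) (P J I none) * χ.χ (TT0 (V0 f ∅ J))
        + ∑ I₁ ∈ f.support.powerset, evI ((L : R) - 1) (P J I (some I₁))
          * χ.χ (TT0 (V0 f I₁ J)) := by
    intro J I hI
    refine huso σ f.support J (P J) (hP J) R ((L : R) - 1) (χ.χ (TT0 (V0 f ∅ J)))
      (fun _ => True) (fun _ _ _ h => h) (fun I => χ.χ (TT0 (V0 f I J)))
      (fun I K hI _ hd hKS => ?_) I hI trivial
    rw [hL]
    exact (hclk k σ R L χ f hai I J K hI hd hKS).1
  have form1 : ∀ (J : Finset σ) (w : σ → ℚ), (∀ i ∈ J, w i = 0) →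
      ∀ (I : Finset (σ →₀ ℕ)), I ⊆ f.support → (∀ α ∈ I, ∑ i, w i * (α i : ℚ) = 1) →
      Y1w χ f J I = evI ((L : R) - 1) (P J I none) * χ.χ (TT0 (V0 f ∅ J))
        + ∑ I₁ ∈ f.support.powerset, evI ((L : R) - 1) (P J I (some I₁))
          * Y1w χ f J I₁ := by
    intro J w hJ I hI hw
    refine huso σ f.support J (P J) (hP J) R ((L : R) - 1) (χ.χ (TT0 (V0 f ∅ J)))
      (fun I => ∀ α ∈ I, ∑ i, w i * (α i : ℚ) = 1)
      (fun I I' h1 h2 α hα => h2 α (h1 hα)) (Y1w χ f J)
      (fun I K hI hw hd hKS => ?_) I hI hw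
    rw [hL]
    exact (hclk k σ R L χ f hai I J K hI hd hKS).2 ⟨w, hw, hJ⟩
  have hgood : ∀ J : Finset σ, Good L f.support B J
      (fun I => evI ((L : R) - 1) (P J I none) * χ.χ (TT0 (V0 f ∅ J))
        + ∑ I₁ ∈ f.support.powerset, evI ((L : R) - 1) (P J I (some I₁)) * Y1w χ f J I₁)
      (fun I => evI ((L : R) - 1) (P J I none) * χ.χ (TT0 (V0 f ∅ J))
        + ∑ I₁ ∈ f.support.powerset, evI ((L : R) - 1) (P J I (some I₁))
          * χ.χ (TT0 (V0 f I₁ J))) := fun J =>
    hgda σ f.support hM B hB1 hB hB0 R L J (hconf J) (P J) (hP J) (χ.χ (TT0 (V0 f ∅ J)))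
      (Y1w χ f J) (fun I => χ.χ (TT0 (V0 f I J))) (Y1w_empty hcls χ f J) rfl
  obtain ⟨T, hTdef⟩ : ∃ T : ℕ → R, T = fun m => ∑ J ∈ (univ : Finset σ).powerset,
      ∑ I ∈ f.support.powerset,
      ((evI ((L : R) - 1) (P J I none) * χ.χ (TT0 (V0 f ∅ J))
        + ∑ I₁ ∈ f.support.powerset, evI ((L : R) - 1) (P J I (some I₁)) * Y1w χ f J I₁)
          * cs (Li L) f.support I J m m
      + (evI ((L : R) - 1) (P J I none) * χ.χ (TT0 (V0 f ∅ J))
        + ∑ I₁ ∈ f.support.powerset, evI ((L : R) - 1) (P J I (some I₁))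
          * χ.χ (TT0 (V0 f I₁ J)))
        * ∑ l ∈ range m, Li L ^ (m - l) * cs (Li L) f.support I J l l) := ⟨_, rfl⟩
  have hRP : RP L (steps ((slopes f.support ∪ {1}) \ B)) T := by
    rw [hTdef]
    exact RP.sum _ fun J _ => hgood J
  refine ⟨fun m => if m = 0 then 0 else T m, by simp, ?_, ?_⟩
  · refine RP.of_shift 1 ((hRP.shift 1).congr fun m => ?_)
    rw [if_neg (Nat.succ_ne_zero m)]
  · intro m hm hω
    simp only [if_neg hm]
    rw [hS k σ R L χ f m hm _ hω, Finset.mul_sum]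
    simp only [keyK χ f h1 h2 h3 hY hf hsm m hm hω]
    rw [Finset.sum_comm, Finset.sum_congr rfl fun t _ =>
        Pool.Agent.Helper30_Simp.H15.sum_gt χ f hT m t,
      Finset.sum_product, Finset.sum_comm, hTdef]
    refine Finset.sum_congr rfl fun J _ => Finset.sum_congr rfl fun I hI => ?_
    have hIM : I ⊆ f.support := Finset.mem_powerset.1 hI
    simp only [coneSum_eq_cs]
    congr 1
    · by_cases hex : ∃ u : σ → ℕ, CellS f.support I J u m
      · obtain ⟨u, hu⟩ := hex
        have hex' : ∃ (u₀ : σ → ℕ) (N₀ : ℕ), CellS f.support (I, J).1 (I, J).2 u₀ N₀ ∧ N₀ ≠ 0 :=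
          ⟨u, m, hu, hm⟩
        have e1 : Pool.Agent.Helper30_Simp.H15.Y1 χ f (I, J)
            = χ.χ (TT1 (V1 hex'.choose_spec.choose_spec.1
            hex'.choose_spec.choose_spec.2) rfl) := by
          unfold Pool.Agent.Helper30_Simp.H15.Y1
          rw [dif_pos hex']
        have e2 : ∀ (u₀ : σ → ℕ) (N₀ : ℕ) (h : CellS f.support I J u₀ N₀) (hN₀ : N₀ ≠ 0),
            χ.χ (TT1 (V1 h hN₀) rfl) = evI ((L : R) - 1) (P J I none) * χ.χ (TT0 (V0 f ∅ J))
              + ∑ I₁ ∈ f.support.powerset, evI ((L : R) - 1) (P J I (some I₁))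
                * Y1w χ f J I₁ := by
          intro u₀ N₀ h hN₀
          have hw : ∀ α ∈ I, ∑ i, ((u₀ i : ℚ) / N₀) * (α i : ℚ) = 1 := by
            intro α hα
            have h5 := h.eq α hα
            rw [dot_nat] at h5
            have h6 : (N₀ : ℚ) ≠ 0 := by exact_mod_cast hN₀
            have h7 : ∑ i, ((u₀ i : ℚ) / N₀) * (α i : ℚ)
                = (∑ i, (u₀ i : ℚ) * (α i : ℚ)) / N₀ := by
              rw [Finset.sum_div]
              exact Finset.sum_congr rfl fun i _ => by ring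
            have h8 : (∑ i, (u₀ i : ℚ) * (α i : ℚ)) = N₀ := by
              rw [← h5]
              push_cast
              rfl
            rw [h7, h8, div_self h6]
          have hJ : ∀ i ∈ J, (u₀ i : ℚ) / N₀ = 0 := by
            intro i hi
            rw [(h.zero i).2 hi]
            simp
          rw [← form1 J (fun i => (u₀ i : ℚ) / N₀) hJ I hIM hw,
            Y1w_eq hcls χ f J I (fun i => (u₀ i : ℚ) / N₀) hw hJ]
        rw [e1, e2]
      · have h5 : cs (Li L) f.support I J m m = 0 := by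
          unfold cs
          refine Finset.sum_eq_zero fun u _ => ?_
          rw [if_neg]
          exact fun h => hex ⟨_, h⟩
        rw [h5, mul_zero, mul_zero]
    · have h5 : Pool.Agent.Helper30_Simp.H15.Y0 χ f (I, J)
          = evI ((L : R) - 1) (P J I none) * χ.χ (TT0 (V0 f ∅ J))
            + ∑ I₁ ∈ f.support.powerset, evI ((L : R) - 1) (P J I (some I₁))
              * χ.χ (TT0 (V0 f I₁ J)) := form0 J I hIM
      rw [h5]
      congr 1
      rw [Finset.Nat.sum_antidiagonal_eq_sum_range_succ_mk, Finset.sum_range_succ]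
      simp only [Nat.sub_self, if_true, mul_zero, add_zero]
      refine Finset.sum_congr rfl fun l hl => ?_
      have hl' := Finset.mem_range.1 hl
      rw [if_neg (by omega : ¬ m - l = 0), Units.val_pow_eq_pow_val, mul_comm]

/-- **Row ZFK**: the end of the zeta side -/
theorem zfk (h1 : SmoStmt) (h2 : ClkStmt) (h3 : RecStmt) (h4 : UsoStmt) (h5 : GdaStmt) :
    ZfinKStmt :=
  zfk_aux
    (Pool.Agent.Helper30_Simp2.H63.cls Pool.Agent.Helper30_Simp.H51.fts
      (Pool.Agent.Helper30_Simp.H39.weights Pool.Agent.Helper30_Simp.H51.fts)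
      (Pool.Agent.Helper30_Simp.H39.split Pool.Agent.Helper30_Simp.H51.fts))
    Pool.Agent.Helper30_Simp.H70.strata Pool.Agent.Helper30_Simp.H51.p1
    Pool.Agent.Helper30_Simp.H51.p2
    (Pool.Agent.Helper30_Simp.H51.p3 Pool.Agent.Helper30_Simp.H52.hen)
    (Pool.Agent.Helper30_Simp.H39.ytt
      (Pool.Agent.Helper30_Simp.H39.weights Pool.Agent.Helper30_Simp.H51.fts)
      (Pool.Agent.Helper30_Simp.H39.split Pool.Agent.Helper30_Simp.H51.fts))
    Pool.Agent.Helper30_Simp.H32.trunc coneStmt h1 h2 h3 h4 h5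

end Pool.Agent.GEN.H71
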